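import Pool.Agent.helper42.NS.Spec

/-! # Project NS, row UNI: disjoint unions -/

namespace Pool.Agent.helper42.NS

open Polynomial Matrix

theorem UNI_graph {n : ℕ} (M : Matrix (Fin n) (Fin n) ℤ) (h01 : ∀ i j, M i j = 0 ∨ M i j = 1)
    (hd : ∀ i, M i i = 0) (hs : ∀ i j, M i j = M j i) : M.charpoly ∈ specs n := by
  classical
  let G : SimpleGraph (Fin n) :=
    { Adj := fun i j => M i j = 1
      symm := ⟨fun i j h => by rw [← hs i j]; exact h⟩
      loopless := ⟨fun i h => by
        have h1 : M i i = 1 := h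
        rw [hd i] at h1
        exact absurd h1 (by norm_num)⟩ }
  have hdec : DecidableRel G.Adj := fun i j => inferInstanceAs (Decidable (M i j = 1))
  refine ⟨G, hdec, ?_⟩
  have h1 : G.adjMatrix ℤ = M := by
    ext i j
    rw [SimpleGraph.adjMatrix_apply]
    by_cases h : M i j = 1
    · rw [if_pos (show G.Adj i j from h), h]
    · rw [if_neg (show ¬ G.Adj i j from h)]
      rcases h01 i j with h2 | h2
      · exact h2.symm
      · exact absurd h2 h
  rw [h1]

theorem UNI_blockDiagonal {K s : ℕ} (A : Fin K → Matrix (Fin s) (Fin s) ℤ) :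
    (Matrix.blockDiagonal A).charpoly = ∏ a, (A a).charpoly := by
  unfold Matrix.charpoly
  have h1 : charmatrix (Matrix.blockDiagonal A) = Matrix.blockDiagonal fun a => charmatrix (A a) := by
    ext1 ⟨i, a⟩ ⟨j, b⟩
    rw [charmatrix_apply, Matrix.blockDiagonal_apply, Matrix.blockDiagonal_apply]
    simp only
    by_cases hab : a = b
    · subst hab
      rw [if_pos rfl, if_pos rfl, charmatrix_apply]
      by_cases hij : i = j
      · subst hij
        rw [Matrix.diagonal_apply_eq, Matrix.diagonal_apply_eq]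
      · rw [Matrix.diagonal_apply_ne _ hij, Matrix.diagonal_apply_ne]
        intro h
        exact hij (congrArg Prod.fst h)
    · rw [if_neg hab, if_neg hab, Matrix.diagonal_apply_ne, C_0, sub_zero]
      intro h
      exact hab (congrArg Prod.snd h)
  rw [h1, Matrix.det_blockDiagonal]

theorem UNI_blocks {m n : Type} [Fintype m] [Fintype n] [DecidableEq m] [DecidableEq n]
    (B : Matrix m m ℤ) :
    (Matrix.fromBlocks B 0 0 (0 : Matrix n n ℤ)).charpoly = B.charpoly * X ^ Fintype.card n := by
  have h1 : (0 : Matrix n n ℤ).charpoly = X ^ Fintype.card n := Matrix.charpoly_zero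
  rw [← h1]
  exact Matrix.charpoly_fromBlocks_zero₂₁ (M₁₁ := B) (M₁₂ := (0 : Matrix m n ℤ))
    (M₂₂ := (0 : Matrix n n ℤ))

theorem UNI : UNI_stmt := by
  intro K s n A hA hn
  classical
  have hcard : Fintype.card ((Fin s × Fin K) ⊕ Fin (n - K * s)) = Fintype.card (Fin n) := by
    rw [Fintype.card_sum, Fintype.card_prod, Fintype.card_fin, Fintype.card_fin, Fintype.card_fin,
      Fintype.card_fin, mul_comm s K]
    omega
  let e := Fintype.equivOfCardEq hcard
  let B := Matrix.fromBlocks (Matrix.blockDiagonal A) 0 0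
    (0 : Matrix (Fin (n - K * s)) (Fin (n - K * s)) ℤ)
  have h1 : (Matrix.reindex e e B).charpoly = X ^ (n - K * s) * ∏ a, (A a).charpoly := by
    rw [Matrix.charpoly_reindex, UNI_blocks, UNI_blockDiagonal, Fintype.card_fin, mul_comm]
  rw [← h1]
  have hB01 : ∀ i j, B i j = 0 ∨ B i j = 1 := by
    rintro (⟨i, a⟩ | i) (⟨j, b⟩ | j)
    · show Matrix.blockDiagonal A (i, a) (j, b) = 0 ∨ Matrix.blockDiagonal A (i, a) (j, b) = 1
      rw [Matrix.blockDiagonal_apply]
      split_ifs
      · exact (hA a).1 i j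
      · exact Or.inl rfl
    · exact Or.inl rfl
    · exact Or.inl rfl
    · exact Or.inl rfl
  have hBd : ∀ i, B i i = 0 := by
    rintro (⟨i, a⟩ | i)
    · show Matrix.blockDiagonal A (i, a) (i, a) = 0
      rw [Matrix.blockDiagonal_apply, if_pos rfl]
      exact (hA a).2.1 i
    · rfl
  have hBs : ∀ i j, B i j = B j i := by
    rintro (⟨i, a⟩ | i) (⟨j, b⟩ | j)
    · show Matrix.blockDiagonal A (i, a) (j, b) = Matrix.blockDiagonal A (j, b) (i, a)
      rw [Matrix.blockDiagonal_apply, Matrix.blockDiagonal_apply]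
      by_cases hab : a = b
      · subst hab
        rw [if_pos rfl, if_pos rfl]
        exact (hA a).2.2 i j
      · rw [if_neg hab, if_neg (Ne.symm hab)]
    · rfl
    · rfl
    · rfl
  exact UNI_graph _ (fun i j => hB01 _ _) (fun i => hBd _) (fun i j => hBs _ _)

end Pool.Agent.helper42.NS
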