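import Pool.Agent.helper42.NS.Spec2
import Pool.Agent.helper38.NS.CNT
import Pool.Agent.helper8.NS.STP

/-! # Row ST3: the small points -/

namespace Pool.Agent.helper42.NS

open Polynomial Matrix

theorem ST3_hered {Q : ∀ t : ℕ, Matrix (Fin t) (Fin t) ℤ → Prop} :
    ∀ {t : ℕ} {H : Matrix (Fin t) (Fin t) ℤ}, Hered Q t H → Q t H
  | 0, _, h => h
  | _ + 1, _, h => h.1

theorem ST3_exp (a : ℕ) (ha : 20 ≤ a) : a * (50 * a + 18) ≤ 2 ^ (10 * a - 1) := by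
  have h1 : a ≤ 2 ^ a := Nat.lt_two_pow_self.le
  calc a * (50 * a + 18) ≤ a * (128 * a) := Nat.mul_le_mul_left a (by omega)
    _ = 128 * (a * a) := by ring
    _ ≤ 128 * (2 ^ a * 2 ^ a) := Nat.mul_le_mul_left 128 (Nat.mul_le_mul h1 h1)
    _ = 2 ^ (7 + (a + a)) := by rw [pow_add, pow_add]; norm_num
    _ ≤ 2 ^ (10 * a - 1) := Nat.pow_le_pow_right (by norm_num) (by omega)

theorem ST3_one (h1 : POT_stmt) (h2 : PSS_stmt) (a : ℕ) (ha : 20 ≤ a) (P : Pt) (hq2 : 2 ≤ qP P)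
    (hqa : qP P < 2 ^ a) :
    (cnt (2 ^ (10 * a)) (fun H => Hered (Q1 a) (2 ^ (10 * a)) H ∧ 7 ≤ crk P H) : ℝ) ≤
      2 ^ ((2 ^ (10 * a)).choose 2) * (7 / 2 / (qP P : ℝ) ^ 6) := by
  have hq : (2 : ℝ) ≤ (qP P : ℝ) := by exact_mod_cast hq2
  have hq1 : (1 : ℝ) ≤ (qP P : ℝ) := by linarith
  have hq0 : (0 : ℝ) < (qP P : ℝ) := by linarith
  have hqa' : (qP P : ℝ) ≤ 2 ^ a := by exact_mod_cast hqa.le
  have hcrk : ∀ (t : ℕ) (H : Matrix (Fin t) (Fin t) ℤ), Hered (Q1 a) t H →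
      crk P H ≤ 50 * a + 18 := by
    intro t H hH
    have h3 := ((ST3_hered hH).1 P).2
    omega
  have hmt : 2 ^ (10 * a) - 2 ^ (10 * a - 1) = 2 ^ (10 * a - 1) := by
    have h3 : 2 ^ (10 * a) = 2 * 2 ^ (10 * a - 1) := by
      rw [← pow_succ']
      congr 1
      omega
    omega
  have key := h1 (Q1 a) (fun t H => (qP P : ℝ) ^ crk P H) (2 ^ (10 * a - 1)) (2 ^ (10 * a))
    ((2 ^ a) ^ (50 * a + 18)) ((qP P : ℝ) + 1) ((qP P : ℝ) ^ 7)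
    (Nat.pow_le_pow_right (by norm_num) (by omega)) (by linarith) (by positivity) (by positivity)
    (fun t H => by positivity)
    (by
      intro H _ hH
      calc (qP P : ℝ) ^ crk P H ≤ (2 ^ a) ^ crk P H := pow_le_pow_left₀ hq0.le hqa' _
        _ ≤ (2 ^ a) ^ (50 * a + 18) :=
          pow_le_pow_right₀ (one_le_pow₀ (by norm_num)) (hcrk _ H hH))
    (by
      intro t ht0 _ H hG hH s _
      have h3 := h2 a t P H (by omega) hG.2.2 ((ST3_hered hH).2 ht0).2 hqa (hcrk t H hH)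
      calc (∑ b ∈ s, (qP P : ℝ) ^ crk P (bord H (ind b))) ≤
          ∑ b : Fin t → Bool, (qP P : ℝ) ^ crk P (bord H (ind b)) :=
            Finset.sum_le_sum_of_subset_of_nonneg (Finset.subset_univ s)
              (fun b _ _ => by positivity)
        _ ≤ 2 ^ t * ((qP P : ℝ) ^ crk P H / 2 + qP P + 1) := h3
        _ = 2 ^ t * ((qP P : ℝ) ^ crk P H / 2 + (qP P + 1)) := by ring)
  rw [hmt] at key
  have hX : ((2 : ℝ) ^ a) ^ (50 * a + 18) / 2 ^ 2 ^ (10 * a - 1) ≤ 1 := by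
    rw [← pow_mul, div_le_one (by positivity)]
    exact pow_le_pow_right₀ (by norm_num) (ST3_exp a ha)
  have hle : cnt (2 ^ (10 * a)) (fun H => Hered (Q1 a) (2 ^ (10 * a)) H ∧ 7 ≤ crk P H) ≤
      cnt (2 ^ (10 * a)) (fun H => Hered (Q1 a) (2 ^ (10 * a)) H ∧
        (qP P : ℝ) ^ 7 ≤ (qP P : ℝ) ^ crk P H) := by
    unfold cnt
    refine Set.ncard_le_ncard ?_ ((CNT_fin _).subset fun H h => h.1)
    intro H h
    exact ⟨h.1, h.2.1, pow_le_pow_right₀ hq1 h.2.2⟩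
  have hle' : (cnt (2 ^ (10 * a)) (fun H => Hered (Q1 a) (2 ^ (10 * a)) H ∧ 7 ≤ crk P H) : ℝ) ≤
      cnt (2 ^ (10 * a)) (fun H => Hered (Q1 a) (2 ^ (10 * a)) H ∧
        (qP P : ℝ) ^ 7 ≤ (qP P : ℝ) ^ crk P H) := by exact_mod_cast hle
  refine hle'.trans ?_
  have hC : (0 : ℝ) ≤ 2 ^ ((2 ^ (10 * a)).choose 2) := by positivity
  have h7 : (0 : ℝ) < (qP P : ℝ) ^ 7 := by positivity
  rw [← mul_le_mul_iff_left₀ h7]
  refine key.trans ?_
  have h8 : (7 / 2 / (qP P : ℝ) ^ 6) * (qP P : ℝ) ^ 7 = 7 / 2 * (qP P : ℝ) := by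
    have : (qP P : ℝ) ^ 6 ≠ 0 := by positivity
    field_simp
  rw [mul_assoc, h8]
  refine mul_le_mul_of_nonneg_left ?_ hC
  linarith

theorem ST3_sum (N : ℕ) : ∑ q ∈ Finset.Ico 2 (N + 2), (1 : ℝ) / (q : ℝ) ^ 5 ≤
    1 / 8 * (1 - 1 / ((N : ℝ) + 1)) := by
  induction N with
  | zero => simp
  | succ N ih =>
    rw [Finset.sum_Ico_succ_top (by omega)]
    have h1 : (1 : ℝ) / (((N + 2 : ℕ) : ℝ)) ^ 5 ≤ 1 / 8 * (1 / ((N : ℝ) + 1) - 1 / ((N : ℝ) + 2)) := by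
      push_cast
      have hN : (0 : ℝ) ≤ (N : ℝ) := Nat.cast_nonneg N
      have e1 : (1 : ℝ) / ((N : ℝ) + 1) - 1 / ((N : ℝ) + 2) = 1 / (((N : ℝ) + 1) * ((N : ℝ) + 2)) := by
        field_simp
        ring
      rw [e1]
      have e2 : 1 / 8 * (1 / (((N : ℝ) + 1) * ((N : ℝ) + 2))) =
          1 / (8 * (((N : ℝ) + 1) * ((N : ℝ) + 2))) := by
        field_simp
      rw [e2]
      apply one_div_le_one_div_of_le (by positivity)
      have e3 : (8 : ℝ) ≤ ((N : ℝ) + 2) ^ 3 := by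
        have : (2 : ℝ) ^ 3 ≤ ((N : ℝ) + 2) ^ 3 := pow_le_pow_left₀ (by norm_num) (by linarith) 3
        linarith
      have e4 : ((N : ℝ) + 1) * ((N : ℝ) + 2) ≤ ((N : ℝ) + 2) ^ 2 := by nlinarith
      calc 8 * (((N : ℝ) + 1) * ((N : ℝ) + 2)) ≤ ((N : ℝ) + 2) ^ 3 * ((N : ℝ) + 2) ^ 2 :=
            mul_le_mul e3 e4 (by positivity) (by positivity)
        _ = ((N : ℝ) + 2) ^ 5 := by ring
    push_cast at ih h1 ⊢
    have e5 : (N : ℝ) + 1 + 1 = (N : ℝ) + 2 := by ring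
    rw [e5]
    linarith

theorem ST3 (h1 : POT_stmt) (h2 : PSS_stmt) (h3 : CNQ_stmt) (h4 : FIN_stmt) : ST3_stmt := by
  intro a ha
  have hq2 : ∀ P : Pt, 2 ≤ qP P := by
    intro P
    obtain ⟨_, p, hp, _, _, d, hd, he⟩ := h4 P
    rw [he]
    exact hp.two_le.trans (Nat.le_self_pow hd.ne' p)
  -- the points with a given number of elements of the residue field
  have hS : ∀ q : ℕ, ∃ S : Finset Pt, (∀ P, P ∈ S ↔ qP P = q) ∧ S.card ≤ q := by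
    intro q
    refine STP_fin (fun P : Pt => qP P = q) q ?_
    intro s hs
    rcases Nat.eq_zero_or_pos q with h0 | h0
    · have h5 : s = ∅ := by
        rw [Finset.eq_empty_iff_forall_notMem]
        intro P hP
        have h6 := hs P hP
        have h7 := hq2 P
        omega
      rw [h5, Finset.card_empty]
      omega
    · exact h3 q s h0 hs
  choose S hS1 hS2 using hS
  set m := 2 ^ (10 * a) with hm
  set C : ℝ := 2 ^ (m.choose 2) with hC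
  have hC0 : 0 ≤ C := by positivity
  have hsub : {H : Matrix (Fin m) (Fin m) ℤ | IsGr H ∧ (Hered (Q1 a) m H ∧
      ∃ P : Pt, qP P < 2 ^ a ∧ 7 ≤ crk P H)} ⊆
      ⋃ q ∈ Finset.Ico 2 (2 ^ a), ⋃ P ∈ S q,
        {H : Matrix (Fin m) (Fin m) ℤ | IsGr H ∧ (Hered (Q1 a) m H ∧ 7 ≤ crk P H)} := by
    rintro H ⟨hG, hH, P, hP, hc⟩
    simp only [Set.mem_iUnion]
    exact ⟨qP P, Finset.mem_Ico.2 ⟨hq2 P, hP⟩, P, (hS1 _ P).2 rfl, hG, hH, hc⟩
  have hfin : (⋃ q ∈ Finset.Ico 2 (2 ^ a), ⋃ P ∈ S q,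
        {H : Matrix (Fin m) (Fin m) ℤ | IsGr H ∧ (Hered (Q1 a) m H ∧ 7 ≤ crk P H)}).Finite := by
    refine (CNT_fin m).subset ?_
    intro H h
    simp only [Set.mem_iUnion] at h
    obtain ⟨_, _, _, _, hG⟩ := h
    exact hG.1
  have hcnt : cnt m (fun H => Hered (Q1 a) m H ∧ ∃ P : Pt, qP P < 2 ^ a ∧ 7 ≤ crk P H) ≤
      ∑ q ∈ Finset.Ico 2 (2 ^ a), ∑ P ∈ S q, cnt m (fun H => Hered (Q1 a) m H ∧ 7 ≤ crk P H) := by
    unfold cnt
    refine (Set.ncard_le_ncard hsub hfin).trans ?_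
    refine (Finset.set_ncard_biUnion_le _ _).trans ?_
    exact Finset.sum_le_sum fun q _ => Finset.set_ncard_biUnion_le _ _
  have hcnt' : (cnt m (fun H => Hered (Q1 a) m H ∧ ∃ P : Pt, qP P < 2 ^ a ∧ 7 ≤ crk P H) : ℝ) ≤
      ∑ q ∈ Finset.Ico 2 (2 ^ a), ∑ P ∈ S q,
        (cnt m (fun H => Hered (Q1 a) m H ∧ 7 ≤ crk P H) : ℝ) := by exact_mod_cast hcnt
  have hq : ∀ q ∈ Finset.Ico 2 (2 ^ a), ∑ P ∈ S q,
      (cnt m (fun H => Hered (Q1 a) m H ∧ 7 ≤ crk P H) : ℝ) ≤ C * (7 / 2 * (1 / (q : ℝ) ^ 5)) := by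
    intro q hq
    obtain ⟨hqa, hqb⟩ := Finset.mem_Ico.1 hq
    have hq0 : (0 : ℝ) < (q : ℝ) := by
      have : 0 < q := by omega
      exact_mod_cast this
    have h5 : ∀ P ∈ S q, (cnt m (fun H => Hered (Q1 a) m H ∧ 7 ≤ crk P H) : ℝ) ≤
        C * (7 / 2 / (q : ℝ) ^ 6) := by
      intro P hP
      have h6 := (hS1 q P).1 hP
      have h7 := ST3_one h1 h2 a ha P (by omega) (by omega)
      rw [h6] at h7
      exact h7
    calc ∑ P ∈ S q, (cnt m (fun H => Hered (Q1 a) m H ∧ 7 ≤ crk P H) : ℝ)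
        ≤ ∑ _P ∈ S q, C * (7 / 2 / (q : ℝ) ^ 6) := Finset.sum_le_sum h5
      _ = (S q).card * (C * (7 / 2 / (q : ℝ) ^ 6)) := by rw [Finset.sum_const, nsmul_eq_mul]
      _ ≤ (q : ℝ) * (C * (7 / 2 / (q : ℝ) ^ 6)) := by
          refine mul_le_mul_of_nonneg_right (by exact_mod_cast hS2 q) (by positivity)
      _ = C * (7 / 2 * (1 / (q : ℝ) ^ 5)) := by
          field_simp
  have h6 : (∑ q ∈ Finset.Ico (2 : ℕ) (2 ^ a), (1 : ℝ) / (q : ℝ) ^ 5) ≤ 1 / 8 := by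
    obtain ⟨N, hN⟩ : ∃ N : ℕ, 2 ^ a = N + 2 := ⟨2 ^ a - 2, by
      have : 2 ^ 1 ≤ 2 ^ a := Nat.pow_le_pow_right (by norm_num) (by omega)
      omega⟩
    rw [hN]
    refine (ST3_sum N).trans ?_
    have : (0 : ℝ) ≤ 1 / ((N : ℝ) + 1) := by positivity
    linarith
  have h7 : (cnt m (fun H => Hered (Q1 a) m H ∧ ∃ P : Pt, qP P < 2 ^ a ∧ 7 ≤ crk P H) : ℝ) ≤
      C * (7 / 16) := by
    refine hcnt'.trans ((Finset.sum_le_sum hq).trans ?_)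
    rw [← Finset.mul_sum, ← Finset.mul_sum]
    refine mul_le_mul_of_nonneg_left ?_ hC0
    linarith
  have h8 : ((cnt m (fun H => Hered (Q1 a) m H ∧ ∃ P : Pt, qP P < 2 ^ a ∧ 7 ≤ crk P H) * 20 : ℕ) : ℝ) ≤
      ((9 * 2 ^ (m.choose 2) : ℕ) : ℝ) := by
    push_cast
    have : C * (7 / 16) * 20 ≤ 9 * C := by linarith
    calc _ ≤ C * (7 / 16) * 20 := mul_le_mul_of_nonneg_right h7 (by norm_num)
      _ ≤ 9 * C := this
  exact_mod_cast h8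

end Pool.Agent.helper42.NS
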